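import Pool.Agent.Helper41.NI.Final
import Pool.Agent.Helper41.GF.Three

set_option autoImplicit false

open MeasureTheory ProbabilityTheory
open scoped ENNReal

namespace Pool.Agent.Results.MP_e4a9a7_pr.FullAnswer

/-- `X` is a simple random walk on the lattice `Fin d → ℤ` started at `x`, under the law `P`: the
increments are independent, and each of the `2 d` unit vectors is taken with probability
`1 / (2 d)`. -/
def IsSRW {d : ℕ} {Ω : Type} [MeasurableSpace Ω] (P : Measure Ω) (x : Fin d → ℤ)
    (X : ℕ → Ω → Fin d → ℤ) : Prop :=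
  (∀ n, Measurable (X n)) ∧ (∀ ω, X 0 ω = x) ∧
  iIndepFun (fun n ω => X (n + 1) ω - X n ω) P ∧
  ∀ n (i : Fin d), P {ω | X (n + 1) ω - X n ω = Pi.single i 1} = 1 / (2 * (d : ℝ≥0∞)) ∧
    P {ω | X (n + 1) ω - X n ω = Pi.single i (-1)} = 1 / (2 * (d : ℝ≥0∞))

/-- There is a coupling of two simple random walks started at `x` and `y` whose paths (sets of all
visited sites) are disjoint with positive probability. -/
def HasAvoidingCoupling {d : ℕ} (x y : Fin d → ℤ) : Prop :=
  ∃ (Ω : Type) (_ : MeasurableSpace Ω) (P : Measure Ω) (_ : IsProbabilityMeasure P)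
    (X Y : ℕ → Ω → Fin d → ℤ), IsSRW P x X ∧ IsSRW P y Y ∧
    0 < P {ω | Disjoint (Set.range fun n => X n ω) (Set.range fun m => Y m ω)}

section dimension_four

lemma vec_eq_pos (s : Helper41.NI.Stp) (i : Fin 4) :
    Helper41.NI.vec s = Pi.single i 1 ↔ s = (i, true) := by
  revert s i
  decide

lemma vec_eq_neg (s : Helper41.NI.Stp) (i : Fin 4) :
    Helper41.NI.vec s = Pi.single i (-1) ↔ s = (i, false) := by
  revert s i
  decide

open Helper41.NI in
/-- A stream with the law of i.i.d. uniform steps drives a simple random walk. -/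
lemma isSRW_of_stream {Ω : Type} [MeasurableSpace Ω] {P : Measure Ω} [IsProbabilityMeasure P]
    {ξ : Ω → Str} (hm : Measurable ξ) (hξ : P.map ξ = PP) (x : Fin 4 → ℤ) :
    IsSRW P x (fun n ω => x + SS n (ξ ω)) := by
  have hvec : Measurable vec := measurable_of_finite _
  have hdiff : ∀ (n : ℕ) (ω : Ω), x + SS (n + 1) (ξ ω) - (x + SS n (ξ ω)) = vec (ξ ω n) := by
    intro n ω
    rw [SS_succ]
    abel
  have hone : ∀ n, P.map (fun ω => vec (ξ ω n)) = stpLaw.map vec := by
    intro n
    have e : (fun ω => vec (ξ ω n)) = (fun u : Str => vec (u n)) ∘ ξ := rfl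
    rw [e, ← Measure.map_map (by fun_prop) hm, hξ]
    have e2 : (fun u : Str => vec (u n)) = vec ∘ (fun u : Str => u n) := rfl
    rw [e2, ← Measure.map_map hvec (by fun_prop)]
    unfold PP
    rw [Measure.infinitePi_map_eval]
  refine ⟨?_, ?_, ?_, ?_⟩
  · intro n
    exact (((Dep_SS le_rfl).comp (fun z => x + z)).measurable (K := n)).comp hm
  · intro ω
    show x + SS 0 (ξ ω) = x
    rw [SS_zero, add_zero]
  · have e : (fun n ω => x + SS (n + 1) (ξ ω) - (x + SS n (ξ ω)))
        = fun n ω => vec (ξ ω n) := by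
      funext n ω
      exact hdiff n ω
    show iIndepFun (fun n ω => x + SS (n + 1) (ξ ω) - (x + SS n (ξ ω))) P
    have hmn : ∀ n, Measurable (fun ω => vec (ξ ω n)) :=
      fun n => hvec.comp ((measurable_pi_apply n).comp hm)
    rw [e, iIndepFun_iff_map_fun_eq_infinitePi_map hmn]
    have e3 : (fun ω n => vec (ξ ω n)) = (fun (u : Str) n => vec (u n)) ∘ ξ := rfl
    have : (fun n => P.map (fun ω => vec (ξ ω n))) = fun _ => stpLaw.map vec := by
      funext n
      exact hone n
    rw [this, e3, ← Measure.map_map (by fun_prop) hm, hξ]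
    unfold PP
    exact Measure.infinitePi_map_pi _ (fun _ => hvec)
  · intro n i
    have h8 : 1 / (2 * ((4 : ℕ) : ℝ≥0∞)) = (8 : ℝ≥0∞)⁻¹ := by
      rw [one_div]
      congr 1
      norm_num
    have key : ∀ (v : V4) (s : Stp), (∀ s', vec s' = v ↔ s' = s) →
        P {ω | x + SS (n + 1) (ξ ω) - (x + SS n (ξ ω)) = v} = (8 : ℝ≥0∞)⁻¹ := by
      intro v s hvs
      have e : {ω | x + SS (n + 1) (ξ ω) - (x + SS n (ξ ω)) = v}
          = (fun ω => vec (ξ ω n)) ⁻¹' {v} := by
        ext ω
        simp only [Set.mem_ofPred_eq, Set.mem_preimage, Set.mem_singleton_iff, hdiff]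
      have hmn : Measurable (fun ω => vec (ξ ω n)) :=
        hvec.comp ((measurable_pi_apply n).comp hm)
      rw [e, ← Measure.map_apply hmn
        (measurableSet_V4 _), hone n, Measure.map_apply hvec (measurableSet_V4 _)]
      have e2 : vec ⁻¹' {v} = {s} := by
        ext s'
        simp only [Set.mem_preimage, Set.mem_singleton_iff]
        exact hvs s'
      rw [e2, stpLaw_singleton]
    rw [h8]
    exact ⟨key _ (i, true) (fun s' => vec_eq_pos s' i), key _ (i, false) (fun s' => vec_eq_neg s' i)⟩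

open Helper41.NI in
lemma avoiding_of_lt (x y : Fin 4 → ℤ) (i : Fin 4) (h : x i < y i) : HasAvoidingCoupling x y := by
  obtain ⟨μ, ξ, η, hμ, hξm, hηm, hξ, hη, hpos⟩ := coupling_streams x y i h
  refine ⟨ℕ → Str × Str, inferInstance, μ, hμ, fun n ω => x + SS n (ξ ω),
    fun n ω => y + SS n (η ω), isSRW_of_stream hξm hξ x, isSRW_of_stream hηm hη y, ?_⟩
  refine lt_of_lt_of_le hpos (measure_mono ?_)
  intro ω hω
  simp only [Set.mem_ofPred_eq] at hω ⊢
  rw [Set.disjoint_left]
  rintro z ⟨m, rfl⟩ ⟨n, hn⟩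
  exact hω m n hn.symm

end dimension_four

section dimension_three

lemma vec3_eq_pos (s : Helper41.GF.Stp) (i : Fin 3) :
    Helper41.GF.vec s = Pi.single i 1 ↔ s = (i, true) := by
  revert s i
  decide

lemma vec3_eq_neg (s : Helper41.GF.Stp) (i : Fin 3) :
    Helper41.GF.vec s = Pi.single i (-1) ↔ s = (i, false) := by
  revert s i
  decide

open Helper41.GF in
/-- A stream with the law of i.i.d. uniform steps drives a simple random walk. -/
lemma isSRW_of_stream3 {Ω : Type} [MeasurableSpace Ω] {P : Measure Ω} [IsProbabilityMeasure P]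
    {ξ : Ω → Str} (hm : Measurable ξ) (hξ : P.map ξ = PP) (x : Fin 3 → ℤ) :
    IsSRW P x (fun n ω => x + SS n (ξ ω)) := by
  have hsp : IsProbabilityMeasure stpLaw := mv_prob1
  have hvec : Measurable vec := measurable_of_finite _
  have hdiff : ∀ (n : ℕ) (ω : Ω), x + SS (n + 1) (ξ ω) - (x + SS n (ξ ω)) = vec (ξ ω n) := by
    intro n ω
    unfold SS
    rw [Finset.sum_range_succ]
    abel
  have hone : ∀ n, P.map (fun ω => vec (ξ ω n)) = stpLaw.map vec := by
    intro n
    have e : (fun ω => vec (ξ ω n)) = (fun u : Str => vec (u n)) ∘ ξ := rfl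
    rw [e, ← Measure.map_map (by fun_prop) hm, hξ]
    have e2 : (fun u : Str => vec (u n)) = vec ∘ (fun u : Str => u n) := rfl
    rw [e2, ← Measure.map_map hvec (by fun_prop)]
    unfold PP
    rw [Measure.infinitePi_map_eval]
  have hmeas : ∀ v : Fin 3 → ℤ, MeasurableSet ({v} : Set (Fin 3 → ℤ)) :=
    fun v => MeasurableSet.singleton v
  refine ⟨?_, ?_, ?_, ?_⟩
  · intro n
    have h1 : Measurable (fun z : Fin 3 → ℤ => x + z) := Measurable.of_discrete
    exact h1.comp ((mmeas_SS n).comp hm)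
  · intro ω
    show x + SS 0 (ξ ω) = x
    rw [mSS_zero, add_zero]
  · have e : (fun n ω => x + SS (n + 1) (ξ ω) - (x + SS n (ξ ω)))
        = fun n ω => vec (ξ ω n) := by
      funext n ω
      exact hdiff n ω
    show iIndepFun (fun n ω => x + SS (n + 1) (ξ ω) - (x + SS n (ξ ω))) P
    have hmn : ∀ n, Measurable (fun ω => vec (ξ ω n)) :=
      fun n => hvec.comp ((measurable_pi_apply n).comp hm)
    rw [e, iIndepFun_iff_map_fun_eq_infinitePi_map hmn]
    have e3 : (fun ω n => vec (ξ ω n)) = (fun (u : Str) n => vec (u n)) ∘ ξ := rfl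
    have : (fun n => P.map (fun ω => vec (ξ ω n))) = fun _ => stpLaw.map vec := by
      funext n
      exact hone n
    rw [this, e3, ← Measure.map_map (by fun_prop) hm, hξ]
    unfold PP
    exact Measure.infinitePi_map_pi _ (fun _ => hvec)
  · intro n i
    have h6 : 1 / (2 * ((3 : ℕ) : ℝ≥0∞)) = (6 : ℝ≥0∞)⁻¹ := by
      rw [one_div]
      congr 1
      norm_num
    have key : ∀ (v : Fin 3 → ℤ) (s : Stp), (∀ s', vec s' = v ↔ s' = s) →
        P {ω | x + SS (n + 1) (ξ ω) - (x + SS n (ξ ω)) = v} = (6 : ℝ≥0∞)⁻¹ := by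
      intro v s hvs
      have e : {ω | x + SS (n + 1) (ξ ω) - (x + SS n (ξ ω)) = v}
          = (fun ω => vec (ξ ω n)) ⁻¹' {v} := by
        ext ω
        simp only [Set.mem_ofPred_eq, Set.mem_preimage, Set.mem_singleton_iff, hdiff]
      have hmn : Measurable (fun ω => vec (ξ ω n)) :=
        hvec.comp ((measurable_pi_apply n).comp hm)
      rw [e, ← Measure.map_apply hmn (hmeas _), hone n, Measure.map_apply hvec (hmeas _)]
      have e2 : vec ⁻¹' {v} = {s} := by
        ext s'
        simp only [Set.mem_preimage, Set.mem_singleton_iff]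
        exact hvs s'
      rw [e2, mstpLaw_singleton]
    rw [h6]
    exact ⟨key _ (i, true) (fun s' => vec3_eq_pos s' i),
      key _ (i, false) (fun s' => vec3_eq_neg s' i)⟩

open Helper41.GF in
lemma avoiding_three : ∃ x y : Fin 3 → ℤ, ∑ i, |x i - y i| = 10 ∧ HasAvoidingCoupling x y := by
  obtain ⟨x, y, hxy, μ, hμ, h1, h2, hpos⟩ := coupling_three
  exact ⟨x, y, hxy, Str × Str, inferInstance, μ, hμ, fun n ω => x + SS n ω.1,
    fun n ω => y + SS n ω.2, isSRW_of_stream3 measurable_fst h1 x,
    isSRW_of_stream3 measurable_snd h2 y, hpos⟩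

end dimension_three

/-- In dimension 3 and in dimension 4 there are starting points at graph distance 10 for which two
simple random walks can be coupled so that their paths do not intersect with positive
probability. -/
theorem result :
    (∃ x y : Fin 3 → ℤ, ∑ i, |x i - y i| = 10 ∧ HasAvoidingCoupling x y) ∧
    (∃ x y : Fin 4 → ℤ, ∑ i, |x i - y i| = 10 ∧ HasAvoidingCoupling x y) := by
  refine ⟨avoiding_three, ⟨0, Pi.single 0 10, ?_, ?_⟩⟩
  · decide
  · exact avoiding_of_lt _ _ 0 (by simp)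

end Pool.Agent.Results.MP_e4a9a7_pr.FullAnswer
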